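import Pool.Agent.Helper42.GW.St

/-!
# Gilbert-Pollak, chapter COR, word level rules: a new vertex in front or behind (helper69)
-/

set_option autoImplicit false

namespace Pool.Agent.Helper69.GW

open Pool.Agent.Helper18.GP Pool.Agent.Helper62.GP Pool.Agent.Helper42.GW Relation Classical

private theorem ch_left {N : ℕ} {V : Finset (Fin N)} {G : SimpleGraph (Fin N)} {P : Fin N → ℂ}
    {x y : Fin N → ℝ} {c : ℝ} (h : Ch V G P x y c) : x ∈ Pts V G := by
  cases h with
  | nil _ hx => exact hx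
  | cons _ _ _ _ hx _ _ => exact hx

private theorem dev_congr {N : ℕ} {V : Finset (Fin N)} {G : SimpleGraph (Fin N)}
    {P P' : Fin N → ℂ} (h : ∀ v ∈ V, P' v = P v) {x : Fin N → ℝ} (hx : x ∈ Pts V G) :
    dev P' x = dev P x := by
  unfold dev
  refine Finset.sum_congr rfl fun v _ => ?_
  by_cases hv : x v = 0
  · rw [hv]; simp
  · rw [h v (hx.2.2.1 v hv)]

private theorem ch_congr {N : ℕ} {V : Finset (Fin N)} {G : SimpleGraph (Fin N)}
    {P P' : Fin N → ℂ} (h : ∀ v ∈ V, P' v = P v) {x y : Fin N → ℝ} {c : ℝ}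
    (hc : Ch V G P x y c) : Ch V G P' x y c := by
  induction hc with
  | nil x hx => exact Ch.nil x hx
  | cons x y z c hx hs h1 ih =>
    rw [← dev_congr h hx, ← dev_congr h (ch_left h1)]
    exact Ch.cons x y z c hx hs ih

private theorem ln_congr {N : ℕ} {V : Finset (Fin N)} {G : SimpleGraph (Fin N)}
    {P P' : Fin N → ℂ} (h : ∀ v ∈ V, P' v = P v) (B : Finset (Fin N)) :
    Ln V G P' B = Ln V G P B := by
  have h1 : dK V G P' = dK V G P := by
    funext x y
    unfold dK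
    congr 1
    ext c
    exact ⟨ch_congr fun v hv => (h v hv).symm, ch_congr h⟩
  unfold Ln
  rw [h1]

private theorem ang_congr {N : ℕ} {V : Finset (Fin N)} {G : SimpleGraph (Fin N)}
    {P P' : Fin N → ℂ} (h : ∀ v ∈ V, P' v = P v) {v : Fin N} (hv : v ∈ V) :
    ang V G P' v = ang V G P v := by
  unfold ang
  refine Finset.sum_congr rfl fun e he => ?_
  unfold tris at he
  rw [Finset.mem_filter, Finset.mem_product] at he
  rw [h v hv, h _ he.1.1, h _ he.1.2]

/-- the shift of the labels -/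
private def sh {N : ℕ} (i : Fin N) : Fin (N + 2) := ⟨i.val + 1, by omega⟩

private theorem sh_inj {N : ℕ} {i j : Fin N} (h : sh i = sh j) : i = j := by
  have h1 : (sh i).val = (sh j).val := by rw [h]
  simp only [sh] at h1
  exact Fin.ext (by omega)

private theorem mem_sh {N : ℕ} {B : Finset (Fin N)} {v : Fin N} : sh v ∈ B.image sh ↔ v ∈ B := by
  rw [Finset.mem_image]
  exact ⟨fun ⟨w, hw, h⟩ => sh_inj h ▸ hw, fun h => ⟨v, h, rfl⟩⟩

private theorem notMem_sh {N : ℕ} {B : Finset (Fin N)} {ζ : Fin (N + 2)}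
    (hζ : ζ.val = 0 ∨ ζ.val = N + 1) : ζ ∉ B.image sh := by
  rw [Finset.mem_image]
  rintro ⟨w, -, h⟩
  have h1 : (sh w).val = ζ.val := by rw [h]
  have h2 := w.isLt
  simp only [sh] at h1
  omega

private theorem core (hR : wRel) (hA : stAdd) {N : ℕ} {V : Finset (Fin N)}
    {G : SimpleGraph (Fin N)} {P : Fin N → ℂ} {a q : Fin N} {z : ℂ} (hT : IsTri V G)
    (hS : St V G P) (ha : a ∈ V) (hq : q ∈ V) (haq : a < q) (hmin : ∀ v ∈ V, a ≤ v ∧ v ≤ q)
    (hc : 0 < crs (z - P q) (P a - P q)) (ζ : Fin (N + 2)) (hζ : ζ.val = 0 ∨ ζ.val = N + 1) :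
    ∃ (G' : SimpleGraph (Fin (N + 2))) (P' : Fin (N + 2) → ℂ),
      IsTri (insert ζ (V.image sh)) G' ∧ St (insert ζ (V.image sh)) G' P' ∧
      (∀ v ∈ V, P' (sh v) = P v) ∧ P' ζ = z ∧
      (∀ v ∈ V, v ≠ a → v ≠ q → ang (insert ζ (V.image sh)) G' P' (sh v) = ang V G P v) ∧
      ang (insert ζ (V.image sh)) G' P' (sh a) = ang V G P a + an (P a) (P q) z ∧
      ang (insert ζ (V.image sh)) G' P' (sh q) = ang V G P q + an (P q) z (P a) ∧
      ang (insert ζ (V.image sh)) G' P' ζ = an z (P a) (P q) ∧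
      ∀ B ⊆ V, Ln (insert ζ (V.image sh)) G' P' (B.image sh) ≤ Ln V G P B := by
  obtain ⟨G1, P1, hT1, hS1, hP1, hang1, hL1⟩ := hR N (N + 2) V G P sh hT hS
    (fun a _ b _ h => sh_inj h) (by
      intro a _ b _ c _ h
      rw [Pool.Agent.Helper13.GP.Ccw_iff] at *
      simp only [sh]
      omega)
  have hnot : ζ ∉ V.image sh := notMem_sh hζ
  set P2 : Fin (N + 2) → ℂ := Function.update P1 ζ z with hP2
  have hPP : ∀ v ∈ V.image sh, P2 v = P1 v := by
    intro v hv
    rw [hP2, Function.update_of_ne]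
    rintro rfl
    exact hnot hv
  have hPz : P2 ζ = z := by rw [hP2, Function.update_self]
  have hPv : ∀ v ∈ V, P2 (sh v) = P v := by
    intro v hv
    rw [hPP _ (mem_sh.2 hv), hP1 v hv]
  have hS2 : St (V.image sh) G1 P2 := by
    intro a ha b hb c hc h1 h2 h3 h4
    rw [hPP a ha, hPP b hb, hPP c hc]
    exact hS1 a ha b hb c hc h1 h2 h3 h4
  have haqv : a.val < q.val := haq
  obtain ⟨G', hT', hS', -, -, hg1, hg2, hg3, hg4, hL2⟩ := hA (N + 2) (V.image sh) G1 P2 ζ (sh a)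
    (sh q) hT1 hS2 hnot (mem_sh.2 ha) (mem_sh.2 hq) (by
      rw [Pool.Agent.Helper13.GP.Ccw_iff]
      have := q.isLt
      simp only [sh]
      omega) (by
      intro v hv
      obtain ⟨u, hu, rfl⟩ := Finset.mem_image.1 hv
      rw [Pool.Agent.Helper13.GP.Ccw_iff]
      have h1 : a.val ≤ u.val := (hmin u hu).1
      have h2 : u.val ≤ q.val := (hmin u hu).2
      simp only [sh]
      omega) (by
      rw [hPz, hPv a ha, hPv q hq]
      exact hc)
  have hbase : ∀ v ∈ V, ang (V.image sh) G1 P2 (sh v) = ang V G P v := by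
    intro v hv
    rw [ang_congr hPP (mem_sh.2 hv), hang1 v hv]
  refine ⟨G', P2, hT', hS', hPv, hPz, ?_, ?_, ?_, ?_, ?_⟩
  · intro v hv hva hvq
    rw [hg1 _ (mem_sh.2 hv) (fun h => hva (sh_inj h)) (fun h => hvq (sh_inj h)), hbase v hv]
  · rw [hg2, hbase a ha, hPz, hPv a ha, hPv q hq]
  · rw [hg3, hbase q hq, hPz, hPv a ha, hPv q hq]
  · rw [hg4, hPz, hPv a ha, hPv q hq]
  · intro B hB
    refine (hL2 _ (Finset.image_subset_image hB)).trans ?_
    rw [ln_congr hPP]
    exact hL1 B hB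

private theorem f2_mem {α β : Type*} {R S : α → β → Prop} {l : List α} {w : List β}
    (h : List.Forall₂ R l w) (hi : ∀ c ∈ l, ∀ b, R c b → S c b) : List.Forall₂ S l w := by
  induction h with
  | nil => exact List.Forall₂.nil
  | cons h1 _ ih =>
    exact List.Forall₂.cons (hi _ List.mem_cons_self _ h1)
      (ih fun c hc => hi c (List.mem_cons_of_mem _ hc))

private theorem oadd_some {a : Option ℝ} {θ α : ℝ} (h : oadd a (some θ) = some α) :
    ∃ β, a = some β ∧ α = β + θ := by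
  cases a with
  | none => simp [oadd] at h
  | some β =>
    simp only [oadd, Option.some.injEq] at h
    exact ⟨β, rfl, h.symm⟩

private theorem sort_eq {N : ℕ} {s : Finset (Fin N)} {l : List (Fin N)}
    (hl : l.Pairwise (· < ·)) (hm : ∀ x, x ∈ s ↔ x ∈ l) : s.sort (· ≤ ·) = l := by
  have h1 : s = l.toFinset := by
    ext x
    rw [List.mem_toFinset]
    exact hm x
  rw [h1]
  exact (List.toFinset_sort (r := (· ≤ ·)) (hl.imp fun h => ne_of_lt h)).2
    (hl.imp fun h => le_of_lt h)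

theorem wAdd_thm (hR : wRel) (hA : stAdd) : wAdd := by
  intro x e w c₁ c₂ z hQ hc
  obtain ⟨N, V, G, P, B₁, B₂, hT, hS, hB₁, hB₂, hF, hL₁, hL₂⟩ := hQ
  -- the sorted list
  obtain ⟨a, l, q, hL, hax, hlw, hqe⟩ : ∃ a l q, V.sort (· ≤ ·) = (a :: l) ++ [q] ∧
      OKI V G P B₁ B₂ a x ∧ List.Forall₂ (OKI V G P B₁ B₂) l w ∧ OKI V G P B₁ B₂ q e := by
    have h1 := List.forall₂_take_append _ _ _ hF
    have h2 := List.forall₂_drop_append _ _ _ hF
    obtain ⟨a, l, h3, h4, h5⟩ := List.forall₂_cons_right_iff.1 h1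
    obtain ⟨q, l', h6, h7, h8⟩ := List.forall₂_cons_right_iff.1 h2
    rw [List.forall₂_nil_right_iff] at h7
    subst h7
    refine ⟨a, l, q, ?_, h3, h4, h6⟩
    rw [← h5, ← h8, List.take_append_drop]
  have hlt : ((a :: l) ++ [q]).Pairwise (· < ·) := by
    rw [← hL]
    exact (Finset.sortedLT_sort V).pairwise
  have hmem : ∀ v, v ∈ V ↔ v = a ∨ v ∈ l ∨ v = q := by
    intro v
    rw [← Finset.mem_sort (r := (· ≤ ·)), hL]
    simp
  rw [List.pairwise_append] at hlt
  obtain ⟨hlt1, -, hlt2⟩ := hlt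
  rw [List.pairwise_cons] at hlt1
  obtain ⟨hlt3, hlt4⟩ := hlt1
  have haq : a < q := hlt2 a List.mem_cons_self q List.mem_cons_self
  have hlq : ∀ v ∈ l, v < q := fun v hv => hlt2 v (List.mem_cons_of_mem _ hv) q List.mem_cons_self
  have haV : a ∈ V := (hmem a).2 (Or.inl rfl)
  have hqV : q ∈ V := (hmem q).2 (Or.inr (Or.inr rfl))
  have hlV : ∀ v ∈ l, v ∈ V := fun v hv => (hmem v).2 (Or.inr (Or.inl hv))
  have hmin : ∀ v ∈ V, a ≤ v ∧ v ≤ q := by
    intro v hv
    rcases (hmem v).1 hv with rfl | h | rfl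
    · exact ⟨le_rfl, haq.le⟩
    · exact ⟨(hlt3 v h).le, (hlq v h).le⟩
    · exact ⟨haq.le, le_rfl⟩
  have hc' : 0 < crs (z - P q) (P a - P q) := by
    rw [hax.1, hqe.1]
    exact hc
  -- the items
  have key : ∀ ζ : Fin (N + 2), ζ.val = 0 ∨ ζ.val = N + 1 →
      ∃ (G' : SimpleGraph (Fin (N + 2))) (P' : Fin (N + 2) → ℂ),
      IsTri (insert ζ (V.image sh)) G' ∧ St (insert ζ (V.image sh)) G' P' ∧
      OKI (insert ζ (V.image sh)) G' P' (B₁.image sh) (B₂.image sh) ζ
        ⟨z, some (an z x.p e.p), false, false⟩ ∧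
      OKI (insert ζ (V.image sh)) G' P' (B₁.image sh) (B₂.image sh) (sh a)
        ⟨x.p, oadd x.a (some (an x.p e.p z)), x.m, x.n⟩ ∧
      List.Forall₂ (OKI (insert ζ (V.image sh)) G' P' (B₁.image sh) (B₂.image sh)) (l.map sh) w ∧
      OKI (insert ζ (V.image sh)) G' P' (B₁.image sh) (B₂.image sh) (sh q)
        ⟨e.p, oadd e.a (some (an e.p z x.p)), e.m, e.n⟩ ∧
      Ln (insert ζ (V.image sh)) G' P' (B₁.image sh) ≤ c₁ ∧
      Ln (insert ζ (V.image sh)) G' P' (B₂.image sh) ≤ c₂ := by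
    intro ζ hζ
    obtain ⟨G', P', hT', hS', hP1, hP2, hg1, hg2, hg3, hg4, hL'⟩ :=
      core hR hA hT hS haV hqV haq hmin hc' ζ hζ
    refine ⟨G', P', hT', hS', ?_, ?_, ?_, ?_, (hL' B₁ hB₁).trans hL₁, (hL' B₂ hB₂).trans hL₂⟩
    · refine ⟨hP2, fun α hα => ?_, ?_, ?_⟩
      · rw [Option.some.injEq] at hα
        rw [hg4, ← hα, hax.1, hqe.1]
      · exact ⟨fun h => absurd h (notMem_sh hζ), fun h => absurd h (by simp)⟩
      · exact ⟨fun h => absurd h (notMem_sh hζ), fun h => absurd h (by simp)⟩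
    · refine ⟨(hP1 a haV).trans hax.1, fun α hα => ?_, mem_sh.trans hax.2.2.1,
        mem_sh.trans hax.2.2.2⟩
      obtain ⟨β, h1, h2⟩ := oadd_some hα
      rw [hg2, hax.2.1 β h1, h2, hax.1, hqe.1]
    · rw [List.forall₂_map_left_iff]
      refine f2_mem hlw fun v hv b hb => ?_
      refine ⟨(hP1 v (hlV v hv)).trans hb.1, fun α hα => ?_, mem_sh.trans hb.2.2.1,
        mem_sh.trans hb.2.2.2⟩
      rw [hg1 v (hlV v hv) (ne_of_gt (hlt3 v hv)) (ne_of_lt (hlq v hv)), hb.2.1 α hα]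
    · refine ⟨(hP1 q hqV).trans hqe.1, fun α hα => ?_, mem_sh.trans hqe.2.2.1,
        mem_sh.trans hqe.2.2.2⟩
      obtain ⟨β, h1, h2⟩ := oadd_some hα
      rw [hg3, hqe.2.1 β h1, h2, hax.1, hqe.1]
  -- the sorted list of the image
  have hpw : ((sh a :: l.map sh) ++ [sh q]).Pairwise (· < ·) := by
    have h1 : ((a :: l) ++ [q]).Pairwise (· < ·) := by
      rw [← hL]
      exact (Finset.sortedLT_sort V).pairwise
    have h2 := h1.map (S := (· < ·)) sh (fun i j hij => by
      rw [Fin.lt_def] at *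
      simp only [sh]
      omega)
    simpa using h2
  have hmem' : ∀ v, v ∈ V.image sh ↔ v ∈ (sh a :: l.map sh) ++ [sh q] := by
    intro v
    rw [Finset.mem_image]
    simp only [List.cons_append, List.mem_cons, List.mem_append, List.mem_map, List.not_mem_nil,
      or_false]
    constructor
    · rintro ⟨u, hu, rfl⟩
      rcases (hmem u).1 hu with rfl | h | rfl
      · exact Or.inl rfl
      · exact Or.inr (Or.inl ⟨u, h, rfl⟩)
      · exact Or.inr (Or.inr rfl)
    · rintro (rfl | ⟨u, hu, rfl⟩ | rfl)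
      · exact ⟨a, haV, rfl⟩
      · exact ⟨u, hlV u hu, rfl⟩
      · exact ⟨q, hqV, rfl⟩
  constructor
  · obtain ⟨G', P', hT', hS', h1, h2, h3, h4, h5, h6⟩ := key ⟨0, by omega⟩ (Or.inl rfl)
    refine ⟨N + 2, _, G', P', B₁.image sh, B₂.image sh, hT', hS',
      (Finset.image_subset_image hB₁).trans (Finset.subset_insert _ _),
      (Finset.image_subset_image hB₂).trans (Finset.subset_insert _ _), ?_, h5, h6⟩
    rw [sort_eq (l := (⟨0, by omega⟩ : Fin (N + 2)) :: ((sh a :: l.map sh) ++ [sh q]))]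
    · exact List.Forall₂.cons h1 (List.Forall₂.cons h2 (List.rel_append h3
        (List.Forall₂.cons h4 List.Forall₂.nil)))
    · rw [List.pairwise_cons]
      refine ⟨fun v hv => ?_, hpw⟩
      rw [← hmem', Finset.mem_image] at hv
      obtain ⟨u, -, rfl⟩ := hv
      rw [Fin.lt_def]
      simp only [sh]
      omega
    · intro v
      rw [Finset.mem_insert, List.mem_cons, hmem']
  · obtain ⟨G', P', hT', hS', h1, h2, h3, h4, h5, h6⟩ := key ⟨N + 1, by omega⟩ (Or.inr rfl)
    refine ⟨N + 2, _, G', P', B₁.image sh, B₂.image sh, hT', hS',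
      (Finset.image_subset_image hB₁).trans (Finset.subset_insert _ _),
      (Finset.image_subset_image hB₂).trans (Finset.subset_insert _ _), ?_, h5, h6⟩
    rw [sort_eq (l := (sh a :: l.map sh) ++ [sh q, (⟨N + 1, by omega⟩ : Fin (N + 2))])]
    · exact List.Forall₂.cons h2 (List.rel_append h3
        (List.Forall₂.cons h4 (List.Forall₂.cons h1 List.Forall₂.nil)))
    · rw [show (sh a :: l.map sh) ++ [sh q, (⟨N + 1, by omega⟩ : Fin (N + 2))] =
        ((sh a :: l.map sh) ++ [sh q]) ++ [(⟨N + 1, by omega⟩ : Fin (N + 2))] by simp]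
      rw [List.pairwise_append]
      refine ⟨hpw, List.pairwise_singleton _ _, fun v hv t ht => ?_⟩
      rw [← hmem', Finset.mem_image] at hv
      obtain ⟨u, -, rfl⟩ := hv
      rw [List.mem_singleton] at ht
      subst ht
      rw [Fin.lt_def]
      have := u.isLt
      simp only [sh]
      omega
    · intro v
      rw [Finset.mem_insert, hmem']
      simp only [List.cons_append, List.mem_cons, List.mem_append, List.not_mem_nil, or_false]
      tauto

end Pool.Agent.Helper69.GW
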